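import Pool.Agent.H270R2.GEN.Defs

/-! Task PAUK of ROOM GEN, BLOCK 2 (helper457): finite systems of every length. -/

set_option autoImplicit false

noncomputable section

namespace Pool.Agent.H270G.T_PAUK

open Pool.Agent.H467F Pool.Agent.H735G Pool.Agent.H270G

/-- statement of HALF -/
def S_HALF : Prop := ∀ (A : Type) [CStarAlgebra A] (τ : A →ₗ[ℂ] ℂ), TW τ → NoAbA A →
    ∃ s t : A, star s = s ∧ s * s = 1 ∧ star t = t ∧ t * t = 1 ∧ s * t = -(t * s)

/-- statement of REL -/
def S_REL : Prop := ∀ (A : Type) [CStarAlgebra A] (τ : A →ₗ[ℂ] ℂ), TW τ → NoAbA A →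
    ∀ (s t : ℕ → A) (K : ℕ), PauK s t K →
    ∃ (B : Type) (_ : CStarAlgebra B) (ι : B →⋆ₐ[ℂ] A) (σ : B →ₗ[ℂ] ℂ),
      TW σ ∧ NoAbA B ∧ Function.Injective ι ∧ (∀ b, ‖ι b‖ = ‖b‖) ∧ (∀ b, σ b = τ (ι b)) ∧
      (∀ x : A, (∀ j < K, s j * x = x * s j ∧ t j * x = x * t j) → ∃ b, ι b = x) ∧
      (∀ b, ∀ j < K, s j * ι b = ι b * s j ∧ t j * ι b = ι b * t j) ∧
      (∀ b, ι (EZ σ b) = EZ τ (ι b))

variable {A : Type} [CStarAlgebra A] {τ : A →ₗ[ℂ] ℂ}

/-- PAUK: there are finite systems of every length. -/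
theorem exists_pauK (hHALF : S_HALF) (hREL : S_REL) (h : TW τ) (hA : NoAbA A) (K : ℕ) :
    ∃ s t : ℕ → A, PauK s t K := by
  induction K with
  | zero =>
    refine ⟨fun _ => 1, fun _ => 1, ?_⟩
    constructor <;> intro j hj <;> exact absurd hj (Nat.not_lt_zero j)
  | succ K ih =>
    obtain ⟨s, t, hp⟩ := ih
    obtain ⟨B, _, ι, σ, hσ, hB, -, -, -, -, hcomm, -⟩ := hREL A τ h hA s t K hp
    obtain ⟨a, b, ha, haa, hb, hbb, hab⟩ := hHALF B σ hσ hB
    have hs : ∀ j, j < K → Function.update s K (ι a) j = s j := fun j hj =>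
      Function.update_of_ne (by omega) _ _
    have ht : ∀ j, j < K → Function.update t K (ι b) j = t j := fun j hj =>
      Function.update_of_ne (by omega) _ _
    have hsK : Function.update s K (ι a) K = ι a := Function.update_self _ _ _
    have htK : Function.update t K (ι b) K = ι b := Function.update_self _ _ _
    refine ⟨Function.update s K (ι a), Function.update t K (ι b), ?_⟩
    constructor
    · intro j hj
      rcases Nat.lt_succ_iff_lt_or_eq.1 hj with h1 | h1
      · rw [hs j h1]; exact hp.ss j h1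
      · rw [h1, hsK, ← map_star, ha]
    · intro j hj
      rcases Nat.lt_succ_iff_lt_or_eq.1 hj with h1 | h1
      · rw [hs j h1]; exact hp.s1 j h1
      · rw [h1, hsK, ← map_mul, haa, map_one]
    · intro j hj
      rcases Nat.lt_succ_iff_lt_or_eq.1 hj with h1 | h1
      · rw [ht j h1]; exact hp.ts j h1
      · rw [h1, htK, ← map_star, hb]
    · intro j hj
      rcases Nat.lt_succ_iff_lt_or_eq.1 hj with h1 | h1
      · rw [ht j h1]; exact hp.t1 j h1
      · rw [h1, htK, ← map_mul, hbb, map_one]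
    · intro j hj
      rcases Nat.lt_succ_iff_lt_or_eq.1 hj with h1 | h1
      · rw [hs j h1, ht j h1]; exact hp.anti j h1
      · rw [h1, hsK, htK, ← map_mul, hab, map_neg, map_mul]
    · intro j hj k hk
      rcases Nat.lt_succ_iff_lt_or_eq.1 hj with h1 | h1 <;>
        rcases Nat.lt_succ_iff_lt_or_eq.1 hk with h2 | h2
      · rw [hs j h1, hs k h2]; exact hp.css j h1 k h2
      · rw [h2, hsK, hs j h1]; exact (hcomm a j h1).1
      · rw [h1, hsK, hs k h2]; exact (hcomm a k h2).1.symm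
      · rw [h1, h2]
    · intro j hj k hk
      rcases Nat.lt_succ_iff_lt_or_eq.1 hj with h1 | h1 <;>
        rcases Nat.lt_succ_iff_lt_or_eq.1 hk with h2 | h2
      · rw [ht j h1, ht k h2]; exact hp.ctt j h1 k h2
      · rw [h2, htK, ht j h1]; exact (hcomm b j h1).2
      · rw [h1, htK, ht k h2]; exact (hcomm b k h2).2.symm
      · rw [h1, h2]
    · intro j hj k hk hjk
      rcases Nat.lt_succ_iff_lt_or_eq.1 hj with h1 | h1 <;>
        rcases Nat.lt_succ_iff_lt_or_eq.1 hk with h2 | h2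
      · rw [hs j h1, ht k h2]; exact hp.cst j h1 k h2 hjk
      · rw [h2, htK, hs j h1]; exact (hcomm b j h1).1
      · rw [h1, hsK, ht k h2]; exact (hcomm a k h2).2.symm
      · exact absurd (h1.trans h2.symm) hjk

end Pool.Agent.H270G.T_PAUK
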